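import Pool.Agent.Helper12.HeightLB

set_option autoImplicit false

open Polynomial Pool.Agent.Helper12.HeightLB

namespace Pool.Agent.Helper19.PF

/-- The inequality of the problem, for the polynomials `f` of degree `d` with the property `Q`. -/
def BoundQ (Q : ℤ[X] → Prop) (d : ℕ) (C₁ C₂ : ℝ) : Prop :=
  ∀ f : Polynomial ℤ, Q f → f.natDegree = d →
      (f.map (Int.castRingHom ℚ)).Separable →
      ∀ x y : ℤ, y ^ 2 = f.eval x →
        Real.log (max |(x : ℝ)| 1) ≤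
          C₁ * Real.log (max ((f.support.sup (fun i => (f.coeff i).natAbs) : ℕ) : ℝ) 1) + C₂

lemma exponent_lower (Q : ℤ[X] → Prop) (d b : ℕ) (hb : 1 ≤ b) (K : ℝ) (hK : 1 ≤ K)
    (fam : ∀ N : ℕ, ∃ n : ℕ, N ≤ n ∧ 1 ≤ n ∧ ∃ (f : ℤ[X]) (x y : ℤ), Q f ∧ f.natDegree = d ∧
      (f.map (Int.castRingHom ℚ)).Separable ∧ (∀ i, ((|f.coeff i| : ℤ) : ℝ) ≤ K * (n : ℝ)) ∧
      y ^ 2 = f.eval x ∧ (n : ℝ) ^ b ≤ K * |(x : ℝ)|)
    (C₁ C₂ : ℝ) (h : BoundQ Q d C₁ C₂) : (b : ℝ) ≤ C₁ := by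
  by_contra hlt
  push Not at hlt
  have hbR : (0 : ℝ) < b := by exact_mod_cast hb
  have hKpos : 0 < K := by linarith
  -- the positive slope
  obtain ⟨C, hC0, hC1, hCb⟩ : ∃ C : ℝ, 0 ≤ C ∧ C₁ ≤ C ∧ C < b := by
    rcases le_total C₁ 0 with h0 | h0
    · exact ⟨0, le_refl _, h0, hbR⟩
    · exact ⟨C₁, h0, le_refl _, hlt⟩
  set T : ℝ := Real.log K + C * Real.log K + C₂ with hT
  obtain ⟨N, hN⟩ := exists_nat_gt (Real.exp (T / (b - C)))
  obtain ⟨n, hNn, hn1, f, x, y, hQ, hdeg, hsep, hcoef, hxy, hbig⟩ := fam N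
  have hn : (1 : ℝ) ≤ n := by exact_mod_cast hn1
  have hnpos : (0 : ℝ) < n := by linarith
  have hlogn : 0 ≤ Real.log n := Real.log_nonneg hn
  have key := h f hQ hdeg hsep x y hxy
  set H : ℝ := max ((f.support.sup (fun i => (f.coeff i).natAbs) : ℕ) : ℝ) 1 with hH
  have hH1 : 1 ≤ H := le_max_right _ _
  have hHle : H ≤ K * (n : ℝ) := by
    apply max_le
    · have : (f.support.sup (fun i => (f.coeff i).natAbs) : ℕ) ≤ ⌊K * (n : ℝ)⌋₊ := by
        apply Finset.sup_le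
        intro i _
        apply Nat.le_floor
        have h1 := hcoef i
        have h2 : (((f.coeff i).natAbs : ℕ) : ℝ) = ((|f.coeff i| : ℤ) : ℝ) := by
          rw [← Int.natCast_natAbs]; simp
        rw [h2]; exact h1
      calc ((f.support.sup (fun i => (f.coeff i).natAbs) : ℕ) : ℝ) ≤ (⌊K * (n : ℝ)⌋₊ : ℝ) := by
            exact_mod_cast this
        _ ≤ K * (n : ℝ) := Nat.floor_le (by positivity)
    · nlinarith
  have hlogH : Real.log H ≤ Real.log K + Real.log n := by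
    calc Real.log H ≤ Real.log (K * (n : ℝ)) := Real.log_le_log (by linarith) hHle
      _ = Real.log K + Real.log n := by
        rw [Real.log_mul (by positivity) (by positivity)]
  have hlogH0 : 0 ≤ Real.log H := Real.log_nonneg hH1
  have hlogx : b * Real.log n ≤ Real.log K + Real.log (max |(x : ℝ)| 1) := by
    have h1 : (n : ℝ) ^ b ≤ K * max |(x : ℝ)| 1 :=
      hbig.trans (mul_le_mul_of_nonneg_left (le_max_left _ _) hKpos.le)
    have h2 := Real.log_le_log (by positivity) h1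
    rw [Real.log_pow, Real.log_mul (by positivity) (by positivity)] at h2
    exact h2
  have h3 : C₁ * Real.log H ≤ C * (Real.log K + Real.log n) :=
    calc C₁ * Real.log H ≤ C * Real.log H := mul_le_mul_of_nonneg_right hC1 hlogH0
      _ ≤ C * (Real.log K + Real.log n) := mul_le_mul_of_nonneg_left hlogH hC0
  have h4 : (b - C) * Real.log n ≤ T := by
    rw [hT]; nlinarith
  have h5 : Real.log n ≤ T / (b - C) := by
    rw [le_div_iff₀ (by linarith)]; linarith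
  have h6 : (n : ℝ) ≤ Real.exp (T / (b - C)) := by
    rw [← Real.exp_log hnpos]
    exact Real.exp_le_exp.mpr h5
  have h7 : (N : ℝ) ≤ n := by exact_mod_cast hNn
  linarith

/-- Arbitrarily large solutions of `u² - D w² = k` from one solution and one unit. -/
lemma pell (D k α β u₀ w₀ : ℤ) (hα : 2 ≤ α) (hβ : 0 ≤ β) (hD : 0 ≤ D) (hu : 1 ≤ u₀) (hw : 0 ≤ w₀)
    (h1 : α ^ 2 - D * β ^ 2 = 1) (h0 : u₀ ^ 2 - D * w₀ ^ 2 = k) (N : ℕ) :
    ∃ u w : ℤ, (N : ℤ) ≤ u ∧ 1 ≤ u ∧ 0 ≤ w ∧ u ^ 2 - D * w ^ 2 = k := by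
  induction N with
  | zero => exact ⟨u₀, w₀, by push_cast; linarith, hu, hw, h0⟩
  | succ n ih =>
    obtain ⟨u, w, e1, e2, e3, e4⟩ := ih
    have hDβw : 0 ≤ D * β * w := mul_nonneg (mul_nonneg hD hβ) e3
    have hu2 : 2 * u ≤ α * u := mul_le_mul_of_nonneg_right hα (by linarith)
    refine ⟨α * u + D * β * w, β * u + α * w, ?_, by linarith, ?_, ?_⟩
    · push_cast
      linarith
    · have := mul_nonneg hβ (by linarith : (0 : ℤ) ≤ u)
      have := mul_nonneg (by linarith : (0 : ℤ) ≤ α) e3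
      linarith
    · have : (α * u + D * β * w) ^ 2 - D * (β * u + α * w) ^ 2 =
          (α ^ 2 - D * β ^ 2) * (u ^ 2 - D * w ^ 2) := by ring
      rw [this, h1, e4, one_mul]

lemma coeff_bound (F : ℤ[X]) : ∃ K : ℤ, 1 ≤ K ∧ ∀ i, |F.coeff i| ≤ K := by
  refine ⟨1 + ∑ i ∈ F.support, |F.coeff i|, ?_, fun i => ?_⟩
  · have : 0 ≤ ∑ i ∈ F.support, |F.coeff i| := Finset.sum_nonneg (fun _ _ => abs_nonneg _)
    linarith
  · by_cases h : i ∈ F.support
    · have h2 : |F.coeff i| ≤ ∑ i ∈ F.support, |F.coeff i| :=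
        Finset.single_le_sum (f := fun i => |F.coeff i|) (fun j _ => abs_nonneg _) h
      linarith
    · have h0 : F.coeff i = 0 := by simpa using h
      have : 0 ≤ ∑ i ∈ F.support, |F.coeff i| := Finset.sum_nonneg (fun _ _ => abs_nonneg _)
      rw [h0]; simp; linarith

/-- The general principle: a linear pencil `F₀ + T F₁` whose value at `x T` is a square for
arbitrarily large `T`, with `x T` of size at least `T ^ E`, forces `C₁ ≥ E`. -/
lemma family (Q : ℤ[X] → Prop) (d E : ℕ) (hE : 1 ≤ E) (F₀ F₁ : ℤ[X]) (T₀ : ℤ)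
    (hcop : ∀ z : ℂ, aeval z F₁ = 0 → aeval z F₀ ≠ 0)
    (hW : F₀ * derivative F₁ - derivative F₀ * F₁ ≠ 0)
    (hdeg : ∀ T : ℤ, T₀ ≤ T → (F₀ + C T * F₁).natDegree = d)
    (hQ : ∀ T : ℤ, T₀ ≤ T → Q (F₀ + C T * F₁))
    (x : ℤ → ℤ)
    (hsq : ∀ N : ℕ, ∃ T y : ℤ, (N : ℤ) ≤ T ∧ y ^ 2 = (F₀ + C T * F₁).eval (x T))
    (hbig : ∀ T : ℤ, T₀ ≤ T → T ^ E ≤ 2 * x T)
    (C₁ C₂ : ℝ) (h : BoundQ Q d C₁ C₂) : (E : ℝ) ≤ C₁ := by
  obtain ⟨K₀, hK₀1, hK₀⟩ := coeff_bound F₀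
  obtain ⟨K₁, hK₁1, hK₁⟩ := coeff_bound F₁
  obtain ⟨M, hM⟩ := (finite_bad F₀ F₁ hcop hW).bddAbove
  set K : ℤ := K₀ + K₁ + 2 with hK
  have hK1 : (1 : ℤ) ≤ K := by linarith
  refine exponent_lower Q d E hE (K : ℝ) (by exact_mod_cast hK1) ?_ C₁ C₂ h
  intro N
  obtain ⟨T, y, hNT, hy⟩ := hsq (N + (|M| + |T₀| + 1).toNat)
  have habs : 0 ≤ |M| + |T₀| + 1 := by positivity
  push_cast [Int.toNat_of_nonneg habs] at hNT
  have hMl := le_abs_self M
  have hTl := le_abs_self T₀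
  have hM0 := abs_nonneg M
  have hT0 := abs_nonneg T₀
  have hN0 : (0 : ℤ) ≤ N := Int.natCast_nonneg N
  have hT1 : T₀ ≤ T := by linarith
  have hT2 : M < T := by linarith
  have hT4 : 1 ≤ T := by linarith
  have hTn : ((T.toNat : ℕ) : ℤ) = T := Int.toNat_of_nonneg (by linarith)
  have hTr : ((T.toNat : ℕ) : ℝ) = (T : ℝ) := by exact_mod_cast hTn
  refine ⟨T.toNat, ?_, ?_, F₀ + C T * F₁, x T, y, hQ T hT1, hdeg T hT1, ?_, ?_, hy, ?_⟩
  · zify
    rw [hTn]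
    linarith
  · zify
    rw [hTn]
    linarith
  · by_contra hns
    exact absurd (hM hns) (not_le.mpr hT2)
  · intro i
    have h1 : |(F₀ + C T * F₁).coeff i| ≤ K * T := by
      rw [coeff_add, coeff_C_mul]
      calc |F₀.coeff i + T * F₁.coeff i| ≤ |F₀.coeff i| + |T * F₁.coeff i| := abs_add_le _ _
        _ = |F₀.coeff i| + T * |F₁.coeff i| := by rw [abs_mul, abs_of_nonneg (by linarith : (0 : ℤ) ≤ T)]
        _ ≤ K₀ + T * K₁ :=
          add_le_add (hK₀ i) (mul_le_mul_of_nonneg_left (hK₁ i) (by linarith))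
        _ ≤ K * T := by
          have h2 : K₀ ≤ K₀ * T := by nlinarith
          rw [hK]; nlinarith
    have h2 : ((|(F₀ + C T * F₁).coeff i| : ℤ) : ℝ) ≤ ((K * T : ℤ) : ℝ) := Int.cast_le.mpr h1
    rw [hTr]
    push_cast at h2 ⊢
    exact h2
  · have h4 : T ^ E ≤ K * |x T| := by
      calc T ^ E ≤ 2 * x T := hbig T hT1
        _ ≤ 2 * |x T| := mul_le_mul_of_nonneg_left (le_abs_self _) (by norm_num)
        _ ≤ K * |x T| := mul_le_mul_of_nonneg_right (by linarith) (abs_nonneg _)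
    have h5 : ((T ^ E : ℤ) : ℝ) ≤ ((K * |x T| : ℤ) : ℝ) := Int.cast_le.mpr h4
    rw [hTr]
    push_cast at h5 ⊢
    exact h5

end Pool.Agent.Helper19.PF
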