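import Pool.Agent.Helper19.PF.Gen

set_option autoImplicit false

open Polynomial

namespace Pool.Agent.Helper19.PF

/-! ### Degree three, exponent seven -/

noncomputable def F3 : ℤ[X] :=
  C (-60) * X ^ 3 + C (-552807115200) * X ^ 2 + C (-1027931182703942289408) * X +
    C (27307328909143800653276774400)

noncomputable def G3 : ℤ[X] :=
  C 2 * X ^ 3 + C 18426903840 * X ^ 2 + C 56591797521434457600 * X +
    C 33617322976587626872586280960

def P3 (T : ℤ) : ℤ :=
  T ^ 7 - 1260 * T ^ 5 + 32900 * T ^ 4 + 651000 * T ^ 3 - 21536928 * T ^ 2 - 16265340 * T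

def Y3 (T : ℤ) : ℤ :=
  T ^ 10 - 34 * T ^ 9 - 1332 * T ^ 8 + 100022 * T ^ 7 - 895496 * T ^ 6 - 70411656 * T ^ 5 +
    1894298364 * T ^ 4 + 329049432 * T ^ 3 - 602546366592 * T ^ 2 + 5694273624456 * T +
    6615266060160

lemma form3 (T : ℤ) : F3 + C T * G3 = C (-60 + T * 2) * X ^ 3 +
    C (-552807115200 + T * 18426903840) * X ^ 2 +
    C (-1027931182703942289408 + T * 56591797521434457600) * X +
    C (27307328909143800653276774400 + T * 33617322976587626872586280960) := by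
  unfold F3 G3
  simp only [C_add, C_mul]
  ring

lemma deg3 (T : ℤ) (hT : 1000 ≤ T) : (F3 + C T * G3).natDegree = 3 := by
  rw [form3]
  apply natDegree_cubic
  intro h
  linarith

lemma cop3 (z : ℂ) (h1 : aeval z G3 = 0) : aeval z F3 ≠ 0 := by
  intro h0
  unfold F3 at h0
  unfold G3 at h1
  simp only [map_add, map_mul, map_pow, aeval_X, aeval_C] at h0 h1
  simp only [eq_intCast] at h0 h1
  push_cast at h0 h1
  have : (5769602427982581744565164911849857986753032355840 : ℂ) = 0 := by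
    linear_combination (z ^ 2 + 7667032320 * z + 16439449707235756800) * h0 +
      (30 * z ^ 2 + 230010969600 * z + 158272119747526984704) * h1
  norm_num at this

lemma wr3 : F3 * derivative G3 - derivative F3 * G3 ≠ 0 := by
  intro h
  have h2 := congrArg (eval 0) h
  unfold F3 G3 at h2
  simp at h2

lemma pt3 (T : ℤ) : (F3 + C T * G3).eval (P3 T) = 2 * ((T + 19) ^ 2 - 7 ^ 2) * (Y3 T) ^ 2 := by
  unfold F3 G3 P3 Y3
  simp only [eval_add, eval_mul, eval_C, eval_pow, eval_X]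
  ring

lemma big3 (T : ℤ) (hT : 1000 ≤ T) : T ^ 7 ≤ 2 * P3 T := by
  obtain ⟨s, hs⟩ : ∃ s : ℤ, s = T - 1000 := ⟨_, rfl⟩
  have hs0 : 0 ≤ s := by linarith
  have hT2 : T = s + 1000 := by linarith
  have h : 2 * P3 T - T ^ 7 = s ^ 7 + 7000 * s ^ 6 + 20997480 * s ^ 5 + 34987465800 * s ^ 4 +
      34975064502000 * s ^ 3 + 20975198662926144 * s ^ 2 + 6987667019819757320 * s +
      997547058893613320000 := by
    rw [hT2]; unfold P3; ring
  have h2 : 0 ≤ 2 * P3 T - T ^ 7 := by rw [h]; positivity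
  linarith

/-! ### Degree four, exponent five -/

noncomputable def F4 : ℤ[X] :=
  C 2 * X ^ 4 + C (-113413632) * X ^ 3 + C 737526435643392 * X ^ 2 +
    C (-1050713729203345293312) * X + C (-859569208716619698130649088)

noncomputable def G4 : ℤ[X] :=
  C 3360000 * X ^ 3 + C (-33358776320000) * X ^ 2 + C 115880789441249280000 * X +
    C (-143910334400755704791040000)

def P4 (T : ℤ) : ℤ := T ^ 5 - 2460 * T ^ 3 + 43380 * T ^ 2 + 239760 * T

def Y4 (T : ℤ) : ℤ :=
  T ^ 9 - 16 * T ^ 8 - 3864 * T ^ 7 + 122984 * T ^ 6 + 3041776 * T ^ 5 - 169638624 * T ^ 4 +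
    1279559184 * T ^ 3 + 21200939136 * T ^ 2 - 136935657216 * T - 565491124224

lemma form4 (T : ℤ) : F4 + C T * G4 = C 2 * X ^ 4 + (C (-113413632 + T * 3360000) * X ^ 3 +
    C (737526435643392 + T * (-33358776320000)) * X ^ 2 +
    C (-1050713729203345293312 + T * 115880789441249280000) * X +
    C (-859569208716619698130649088 + T * (-143910334400755704791040000))) := by
  unfold F4 G4
  simp only [C_add, C_mul]
  ring

lemma deg4 (T : ℤ) : (F4 + C T * G4).natDegree = 4 := by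
  rw [form4]
  have h1 : (C (2 : ℤ) * X ^ 4 : ℤ[X]).natDegree = 4 := natDegree_C_mul_X_pow 4 2 (by norm_num)
  rw [natDegree_add_eq_left_of_natDegree_lt, h1]
  rw [h1]
  exact lt_of_le_of_lt natDegree_cubic_le (by norm_num)

lemma lead4 (T : ℤ) : (F4 + C T * G4).leadingCoeff = 2 := by
  rw [leadingCoeff, deg4, form4, coeff_add, coeff_C_mul, coeff_X_pow_self,
    coeff_eq_zero_of_natDegree_lt (lt_of_le_of_lt natDegree_cubic_le (by norm_num))]
  norm_num

lemma cop4 (z : ℂ) (h1 : aeval z G4 = 0) : aeval z F4 ≠ 0 := by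
  intro h0
  unfold F4 at h0
  unfold G4 at h1
  simp only [map_add, map_mul, map_pow, aeval_X, aeval_C] at h0 h1
  simp only [eq_intCast] at h0 h1
  push_cast at h0 h1
  have : (1317994937640000000000000000000000000000000000000000 : ℂ) = 0 := by
    linear_combination ((-108865039920000) * z ^ 2 + 654659484072847360000 * z +
      (-1190761734711706379550720000)) * h0 +
      (64800619 * z ^ 3 + (-3420961068059328) * z ^ 2 + 10503409578846228774912 * z +
        7103201666475753476829609984) * h1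
  norm_num at this

lemma wr4 : F4 * derivative G4 - derivative F4 * G4 ≠ 0 := by
  intro h
  have h2 := congrArg (eval 0) h
  unfold F4 G4 at h2
  simp at h2

lemma pt4 (T : ℤ) : (F4 + C T * G4).eval (P4 T) = 2 * ((T + 16) ^ 2 - 40 ^ 2) * (Y4 T) ^ 2 := by
  unfold F4 G4 P4 Y4
  simp only [eval_add, eval_mul, eval_C, eval_pow, eval_X]
  ring

lemma big4 (T : ℤ) (hT : 1000 ≤ T) : T ^ 5 ≤ 2 * P4 T := by
  obtain ⟨s, hs⟩ : ∃ s : ℤ, s = T - 1000 := ⟨_, rfl⟩
  have hs0 : 0 ≤ s := by linarith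
  have hT2 : T = s + 1000 := by linarith
  have h : 2 * P4 T - T ^ 5 = s ^ 5 + 5000 * s ^ 4 + 9995080 * s ^ 3 + 9985326760 * s ^ 2 +
      4985413999520 * s + 995167239520000 := by
    rw [hT2]; unfold P4; ring
  have h2 : 0 ≤ 2 * P4 T - T ^ 5 := by rw [h]; positivity
  linarith

/-! ### Monic cubics, exponent six -/

noncomputable def F6 : ℤ[X] :=
  C 1 * X ^ 3 + C (-211040192970) * X ^ 2 + C (-174362161541488762446900) * X +
    C 67445719007789640172002180513165000

noncomputable def G6 : ℤ[X] :=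
  C (-9916452864) * X ^ 2 + C 3880002857422846279680 * X +
    C (-61495568245437520770553876070400)

def P6 (T : ℤ) : ℤ :=
  6 * (T ^ 6 - 1095 * T ^ 4 + 187960 * T ^ 3 - 34350525 * T ^ 2 + 286841544 * T)

def Y6 (T : ℤ) : ℤ :=
  T ^ 8 - 14 * T ^ 7 - 2054 * T ^ 6 + 327706 * T ^ 5 - 54469844 * T ^ 4 - 11443370 * T ^ 3 +
    60024162070 * T ^ 2 - 5928518729570 * T + 470421120436675

lemma form6 (T : ℤ) : F6 + C T * G6 = C 1 * X ^ 3 +
    C (-211040192970 + T * (-9916452864)) * X ^ 2 +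
    C (-174362161541488762446900 + T * 3880002857422846279680) * X +
    C (67445719007789640172002180513165000 + T * (-61495568245437520770553876070400)) := by
  unfold F6 G6
  simp only [C_add, C_mul]
  ring

lemma deg6 (T : ℤ) : (F6 + C T * G6).natDegree = 3 := by
  rw [form6]
  exact natDegree_cubic (by norm_num)

lemma monic6 (T : ℤ) : (F6 + C T * G6).Monic := by
  rw [form6]
  exact leadingCoeff_cubic (by norm_num)

lemma cop6 (z : ℂ) (h1 : aeval z G6 = 0) : aeval z F6 ≠ 0 := by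
  intro h0
  unfold F6 at h0
  unfold G6 at h1
  simp only [map_add, map_mul, map_pow, aeval_X, aeval_C] at h0 h1
  simp only [eq_intCast] at h0 h1
  push_cast at h0 h1
  have : (8897181555951253274500710813928034552610970769817600000000 : ℂ) = 0 := by
    linear_combination (604903624704 * z + 127915345957228848783360) * h0 +
      (61 * z ^ 2 + 23893275733140 * z + (-4387943447547794700151500)) * h1
  norm_num at this

lemma wr6 : F6 * derivative G6 - derivative F6 * G6 ≠ 0 := by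
  intro h
  have h2 := congrArg (eval 0) h
  unfold F6 G6 at h2
  simp at h2

lemma pt6 (T : ℤ) : (F6 + C T * G6).eval (P6 T) = 216 * ((T + 14) ^ 2 + 1215) * (Y6 T) ^ 2 := by
  unfold F6 G6 P6 Y6
  simp only [eval_add, eval_mul, eval_C, eval_pow, eval_X]
  ring

lemma big6 (T : ℤ) (hT : 1000 ≤ T) : T ^ 6 ≤ 2 * P6 T := by
  obtain ⟨s, hs⟩ : ∃ s : ℤ, s = T - 1000 := ⟨_, rfl⟩
  have hs0 : 0 ≤ s := by linarith
  have hT2 : T = s + 1000 := by linarith
  have h : 2 * P6 T - T ^ 6 = 11 * s ^ 6 + 66000 * s ^ 5 + 164986860 * s ^ 4 +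
      219949695520 * s ^ 3 + 164927514353700 * s ^ 2 + 65953385589498528 * s +
      10988706755798528000 := by
    rw [hT2]; unfold P6; ring
  have h2 : 0 ≤ 2 * P6 T - T ^ 6 := by rw [h]; positivity
  linarith

/-! ### The three bounds -/

lemma sq3 (N : ℕ) : ∃ T y : ℤ, (N : ℤ) ≤ T ∧ y ^ 2 = (F3 + C T * G3).eval (P3 T) := by
  obtain ⟨a, b, h1, -, -, h4⟩ := pell 2 1 3 2 3 2 (by norm_num) (by norm_num) (by norm_num)
    (by norm_num) (by norm_num) (by norm_num) (by norm_num) (N + 19)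
  push_cast at h1
  refine ⟨7 * a - 19, 14 * b * Y3 (7 * a - 19), by linarith, ?_⟩
  rw [pt3]
  have h5 : a ^ 2 = 2 * b ^ 2 + 1 := by linarith
  have h6 : (7 * a - 19 + 19) ^ 2 = 49 * a ^ 2 := by ring
  rw [h6, h5]
  ring

lemma sq4 (N : ℕ) : ∃ T y : ℤ, (N : ℤ) ≤ T ∧ y ^ 2 = (F4 + C T * G4).eval (P4 T) := by
  obtain ⟨a, b, h1, -, -, h4⟩ := pell 2 1 3 2 3 2 (by norm_num) (by norm_num) (by norm_num)
    (by norm_num) (by norm_num) (by norm_num) (by norm_num) (N + 16)
  push_cast at h1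
  refine ⟨40 * a - 16, 80 * b * Y4 (40 * a - 16), by linarith, ?_⟩
  rw [pt4]
  have h5 : a ^ 2 = 2 * b ^ 2 + 1 := by linarith
  have h6 : (40 * a - 16 + 16) ^ 2 = 1600 * a ^ 2 := by ring
  rw [h6, h5]
  ring

lemma sq6 (N : ℕ) : ∃ T y : ℤ, (N : ℤ) ≤ T ∧ y ^ 2 = (F6 + C T * G6).eval (P6 T) := by
  obtain ⟨u, w, h1, -, -, h4⟩ := pell 6 (-1215) 5 2 27 18 (by norm_num) (by norm_num) (by norm_num)
    (by norm_num) (by norm_num) (by norm_num) (by norm_num) (N + 14)
  push_cast at h1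
  refine ⟨u - 14, 36 * w * Y6 (u - 14), by linarith, ?_⟩
  rw [pt6]
  have h5 : u ^ 2 + 1215 = 6 * w ^ 2 := by linarith
  have h6 : (u - 14 + 14) ^ 2 + 1215 = 6 * w ^ 2 := by rw [← h5]; ring
  rw [h6]
  ring

lemma cubic (C₁ C₂ : ℝ) (h : BoundQ (fun _ => True) 3 C₁ C₂) : 7 ≤ C₁ := by
  have key := family _ 3 7 (by norm_num) F3 G3 1000 cop3 wr3 deg3 (fun _ _ => trivial) P3 sq3
    big3 C₁ C₂ h
  exact_mod_cast key

lemma quartic (C₁ C₂ : ℝ) (h : BoundQ (fun f => f.leadingCoeff = 2) 4 C₁ C₂) : 5 ≤ C₁ := by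
  have key := family _ 4 5 (by norm_num) F4 G4 1000 cop4 wr4 (fun T _ => deg4 T)
    (fun T _ => lead4 T) P4 sq4 big4 C₁ C₂ h
  exact_mod_cast key

lemma monic_cubic (C₁ C₂ : ℝ) (h : BoundQ (fun f => f.Monic) 3 C₁ C₂) : 6 ≤ C₁ := by
  have key := family _ 3 6 (by norm_num) F6 G6 1000 cop6 wr6 (fun T _ => deg6 T)
    (fun T _ => monic6 T) P6 sq6 big6 C₁ C₂ h
  exact_mod_cast key

end Pool.Agent.Helper19.PF
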