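import Pool.Agent.Helper12.SomosFam
import Pool.Agent.Helper12.HeightLBM

set_option autoImplicit false

open Polynomial Pool.Agent.Helper12.HeightLB Pool.Agent.Helper12.SomosEDS

namespace Pool.Agent.Helper19.PF.Tri

lemma avoid2 (S : Set ℤ) (hS : S.Finite) (N : ℕ) :
    ∃ n : ℕ, N ≤ n ∧ 1 ≤ n ∧ (-2 * (n : ℤ)) ∉ S := by
  by_contra hcon
  push Not at hcon
  have hinj : Set.InjOn (fun n : ℕ => (-2 * (n : ℤ))) (Set.Ici (max N 1)) := by
    intro a _ b _ h
    have h' : (-2 * (a : ℤ)) = -2 * (b : ℤ) := h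
    omega
  have hmaps : ∀ n ∈ Set.Ici (max N 1), (fun n : ℕ => (-2 * (n : ℤ))) n ∈ S := by
    intro n hn
    have hn' : max N 1 ≤ n := hn
    exact hcon n (le_trans (le_max_left _ _) hn') (le_trans (le_max_right _ _) hn')
  have := Set.Finite.of_injOn hmaps hinj hS
  exact (Set.Ici_infinite (max N 1)) this

lemma coef_bound (p : ℤ[X]) : ∃ B : ℕ, ∀ i, |p.coeff i| ≤ (B : ℤ) := by
  refine ⟨p.support.sup (fun i => (p.coeff i).natAbs), fun i => ?_⟩
  by_cases hi : i ∈ p.support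
  · rw [Int.abs_eq_natAbs]
    exact_mod_cast Finset.le_sup (f := fun i => (p.coeff i).natAbs) hi
  · rw [Polynomial.notMem_support_iff.mp hi]; simp

/-- For every triangular number `d = n (n + 1) / 2` with `n ≥ 2`, even for monic polynomials, any
admissible constant `C₁` is at least `4`. -/
theorem result :
    ∀ n : ℕ, 2 ≤ n → ∀ C₁ C₂ : ℝ, (∀ f : Polynomial ℤ, f.Monic → f.natDegree = n * (n + 1) / 2 →
      (f.map (Int.castRingHom ℚ)).Separable →
      ∀ x y : ℤ, y ^ 2 = f.eval x →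
        Real.log (max |(x : ℝ)| 1) ≤
          C₁ * Real.log (max ((f.support.sup (fun i => (f.coeff i).natAbs) : ℕ) : ℝ) 1) + C₂) →
      4 ≤ C₁ := by
  intro n hn C₁ C₂ hbound
  obtain ⟨m, rfl⟩ : ∃ m, n = m + 2 := ⟨n - 2, by omega⟩
  obtain ⟨B0, hB0⟩ := coef_bound (F0 m)
  obtain ⟨B1, hB1⟩ := coef_bound (F1 m)
  have key : ((4 : ℕ) : ℝ) / ((1 : ℕ) : ℝ) ≤ C₁ := by
    refine exponent_lower_monic ((m + 2) * (m + 2 + 1) / 2) 1 4 (by norm_num) (by norm_num)
      (B0 + 2 * B1 + 1) (by have := Nat.cast_nonneg (α := ℝ) B0; have := Nat.cast_nonneg (α := ℝ) B1;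
                            linarith) ?_ C₁ C₂ hbound
    intro N
    obtain ⟨w, hN, h1, hns⟩ := avoid2 _ (finite_bad (F0 m) (F1 m) (F_cop m) (F_W m)) N
    have hsep := not_not.mp hns
    obtain ⟨y, hy⟩ := eval_square m (w : ℤ)
    have hw : (1 : ℝ) ≤ w := by exact_mod_cast h1
    have hlt : (C (-2 * (w : ℤ)) * F1 m).natDegree < (F0 m).natDegree := by
      have h2 := natDegree_C_mul_le (-2 * (w : ℤ)) (F1 m)
      have h3 := F1_lt m
      rw [(F0_DL m).1]; omega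
    refine ⟨w, hN, h1, F0 m + C (-2 * (w : ℤ)) * F1 m, 4 * (w : ℤ) ^ 4 + 2 * w, y, ?_,
      F_deg m _, hsep, ?_, hy, ?_⟩
    · rw [Polynomial.Monic, leadingCoeff_add_of_degree_lt' (degree_lt_degree hlt)]
      exact (F0_DL m).2
    · intro i
      have e : (F0 m + C (-2 * (w : ℤ)) * F1 m).coeff i =
          (F0 m).coeff i + -2 * (w : ℤ) * (F1 m).coeff i := by
        rw [coeff_add, coeff_C_mul]
      have a0 : |(((F0 m).coeff i : ℤ) : ℝ)| ≤ B0 := by exact_mod_cast hB0 i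
      have a1 : |(((F1 m).coeff i : ℤ) : ℝ)| ≤ B1 := by exact_mod_cast hB1 i
      rw [e]
      push_cast
      have t := abs_add_le (((F0 m).coeff i : ℤ) : ℝ) (-2 * (w : ℝ) * (((F1 m).coeff i : ℤ) : ℝ))
      have t2 : |(-2 * (w : ℝ) * (((F1 m).coeff i : ℤ) : ℝ))| ≤ 2 * w * B1 := by
        rw [abs_mul, abs_mul, abs_neg, abs_two, abs_of_nonneg (by linarith : (0 : ℝ) ≤ w)]
        exact mul_le_mul_of_nonneg_left a1 (by linarith)
      have b0 : (0 : ℝ) ≤ B0 := Nat.cast_nonneg _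
      rw [pow_one]
      nlinarith [mul_le_mul_of_nonneg_left hw b0]
    · have b0 : (0 : ℝ) ≤ B0 := Nat.cast_nonneg _
      have b1 : (0 : ℝ) ≤ B1 := Nat.cast_nonneg _
      push_cast
      have hp : (0 : ℝ) ≤ (w : ℝ) ^ 4 := by positivity
      rw [abs_of_nonneg (by positivity)]
      nlinarith [mul_nonneg b0 hp, mul_nonneg b1 hp, mul_nonneg b0 (by linarith : (0:ℝ) ≤ w),
        mul_nonneg b1 (by linarith : (0:ℝ) ≤ w)]
  norm_num at key
  exact key

end Pool.Agent.Helper19.PF.Tri
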